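import Pool.Agent.W325.S3.Step2
import Pool.Agent.H46R2.K3.MU

/-! The optimal scale function for self-avoiding walks on `ℤ³`. -/

namespace Pool.Agent.TH232.S3

open Finset Pool.Agent.H46R2.K3 Pool.Agent.H46R2.K3.P Pool.Agent.W325.S3

theorem mu_pos' : (0 : ℝ) < mu := lt_of_lt_of_le one_pos one_le_mu

/-- `sup_{k ≤ N} log (c_k / μ^k)` -/
noncomputable def Gs (N : ℕ) : ℝ :=
  (range (N + 1)).sup' ⟨0, by simp⟩ (fun k => Real.log ((c k : ℝ) / mu ^ k))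

theorem c_pos' (k : ℕ) : (0 : ℝ) < c k := by
  have := mu_one_le_cR k
  linarith

theorem c_le_Gs {N k : ℕ} (hk : k ≤ N) : (c k : ℝ) ≤ mu ^ k * Real.exp (Gs N) := by
  have h1 : Real.log ((c k : ℝ) / mu ^ k) ≤ Gs N :=
    le_sup' (fun k => Real.log ((c k : ℝ) / mu ^ k)) (mem_range.2 (by omega))
  have hp : (0 : ℝ) < mu ^ k := pow_pos mu_pos' k
  have h2 : 0 < (c k : ℝ) / mu ^ k := div_pos (c_pos' k) hp
  rw [Real.log_le_iff_le_exp h2, div_le_iff₀ hp] at h1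
  linarith

theorem Gs_nonneg (N : ℕ) : 0 ≤ Gs N := by
  have h1 : Real.log ((c 0 : ℝ) / mu ^ 0) ≤ Gs N :=
    le_sup' (fun k => Real.log ((c k : ℝ) / mu ^ k)) (mem_range.2 (by omega))
  refine le_trans ?_ h1
  rw [pow_zero, div_one]
  exact Real.log_nonneg (mu_one_le_cR 0)

theorem Gs_mono {N N' : ℕ} (h : N ≤ N') : Gs N ≤ Gs N' :=
  sup'_mono _ (range_subset_range.2 (by omega)) _

theorem Gs_le {N : ℕ} {X : ℝ} (h : ∀ k ≤ N, (c k : ℝ) ≤ mu ^ k * Real.exp X) : Gs N ≤ X := by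
  apply sup'_le
  intro k hk
  have hp : (0 : ℝ) < mu ^ k := pow_pos mu_pos' k
  have h2 : 0 < (c k : ℝ) / mu ^ k := div_pos (c_pos' k) hp
  rw [Real.log_le_iff_le_exp h2, div_le_iff₀ hp]
  have := h k (by rw [mem_range] at hk; omega)
  linarith

theorem Gs_double (N : ℕ) : Gs (2 * N) ≤ 2 * Gs N := by
  apply Gs_le
  intro k hk
  obtain ⟨a, b, ha, hb, hab⟩ : ∃ a b, a ≤ N ∧ b ≤ N ∧ k = a + b :=
    ⟨min k N, k - min k N, by omega, by omega, by omega⟩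
  have h1 : (c k : ℝ) ≤ (c a : ℝ) * c b := by
    rw [hab]; exact_mod_cast mu_c_add a b
  refine h1.trans ?_
  have h2 := c_le_Gs ha
  have h3 := c_le_Gs hb
  have hm := mu_pos'
  calc (c a : ℝ) * c b ≤ (mu ^ a * Real.exp (Gs N)) * (mu ^ b * Real.exp (Gs N)) := by
        apply mul_le_mul h2 h3 (Nat.cast_nonneg _) (by positivity)
    _ = mu ^ k * Real.exp (2 * Gs N) := by
        rw [hab, pow_add, two_mul, Real.exp_add]; ring

theorem Gs_triv (N : ℕ) : Gs N ≤ 2 * N := by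
  apply Gs_le
  intro k hk
  have h1 : (c k : ℝ) ≤ (6 : ℝ) ^ k := by exact_mod_cast mu_c_le k
  have h2 : (6 : ℝ) ≤ Real.exp 2 := by
    have e4 : Real.exp 2 = Real.exp 1 ^ 2 := by rw [← Real.exp_nat_mul]; norm_num
    have h4 := Real.exp_one_gt_d9
    have h5 : (2.7182818283 : ℝ) ^ 2 ≤ Real.exp 1 ^ 2 := by gcongr
    rw [e4]; exact le_trans (by norm_num) h5
  have h3 : (1 : ℝ) ≤ mu ^ k := one_le_pow₀ one_le_mu
  calc (c k : ℝ) ≤ (6 : ℝ) ^ k := h1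
    _ ≤ Real.exp 2 ^ k := by gcongr
    _ = Real.exp (2 * k) := by rw [← Real.exp_nat_mul]; ring_nf
    _ ≤ Real.exp (2 * N) := by
        apply Real.exp_le_exp.2
        have : (k : ℝ) ≤ N := by exact_mod_cast hk
        linarith
    _ = 1 * Real.exp (2 * N) := (one_mul _).symm
    _ ≤ mu ^ k * Real.exp (2 * N) := by gcongr

/-- the scale function -/
noncomputable def g (l : ℕ) : ℝ := max (4 * ((l : ℝ) + 1)) (Gs (2 ^ l))

theorem g_low (l : ℕ) : 4 * ((l : ℝ) + 1) ≤ g l := le_max_left _ _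

theorem g_mono1 (l : ℕ) : g l ≤ g (l + 1) := by
  unfold g
  apply max_le_max
  · push_cast; linarith
  · exact Gs_mono (Nat.pow_le_pow_right (by norm_num) (by omega))

theorem g_mono {l l' : ℕ} (h : l ≤ l') : g l ≤ g l' := monotone_nat_of_le_succ g_mono1 h

theorem g_four (l : ℕ) : 4 ≤ g l := by
  have := g_low l
  have h2 : (0 : ℝ) ≤ l := Nat.cast_nonneg l
  linarith

theorem g_succ (l : ℕ) : g (l + 1) ≤ ((2 : ℕ) : ℝ) * g l := by
  push_cast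
  apply max_le
  · have := g_low l
    have h2 : (0 : ℝ) ≤ l := Nat.cast_nonneg l
    push_cast
    linarith
  · rw [pow_succ, mul_comm]
    refine (Gs_double _).trans ?_
    have : Gs (2 ^ l) ≤ g l := le_max_right _ _
    linarith

theorem exp_four : (54 : ℝ) ≤ Real.exp 4 := by
  have e4 : Real.exp 4 = Real.exp 1 ^ 4 := by rw [← Real.exp_nat_mul]; norm_num
  have h4 := Real.exp_one_gt_d9
  have h5 : (2.7182818283 : ℝ) ^ 4 ≤ Real.exp 1 ^ 4 := by gcongr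
  rw [e4]; exact le_trans (by norm_num) h5

theorem exp_g (l : ℕ) : (54 : ℝ) ^ (l + 1) ≤ Real.exp (g l) := by
  calc (54 : ℝ) ^ (l + 1) ≤ Real.exp 4 ^ (l + 1) := by
        have := exp_four
        gcongr
    _ = Real.exp (4 * ((l : ℝ) + 1)) := by rw [← Real.exp_nat_mul]; push_cast; ring_nf
    _ ≤ Real.exp (g l) := Real.exp_le_exp.2 (g_low l)

theorem g_base1 (l : ℕ) : 12 * (((2 : ℕ) : ℝ) ^ l + 1) ^ 2 ≤ Real.exp (g l) := by
  refine le_trans ?_ (exp_g l)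
  push_cast
  have h1 : (1 : ℝ) ≤ 2 ^ l := one_le_pow₀ (by norm_num)
  calc 12 * ((2 : ℝ) ^ l + 1) ^ 2 ≤ 12 * ((2 : ℝ) ^ l + 2 ^ l) ^ 2 := by gcongr
    _ = 48 * 4 ^ l := by
        have : (4 : ℝ) ^ l = (2 ^ l) ^ 2 := by rw [← pow_mul, mul_comm, pow_mul]; norm_num
        rw [this]; ring
    _ ≤ 54 * 54 ^ l := by gcongr <;> norm_num
    _ = 54 ^ (l + 1) := by rw [pow_succ]; ring

theorem g_base2 (l : ℕ) : (2 * ((2 : ℕ) : ℝ) ^ l + 1) ^ 3 ≤ Real.exp (g l) := by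
  refine le_trans ?_ (exp_g l)
  push_cast
  have h1 : (1 : ℝ) ≤ 2 ^ l := one_le_pow₀ (by norm_num)
  calc (2 * (2 : ℝ) ^ l + 1) ^ 3 ≤ (2 * (2 : ℝ) ^ l + 2 ^ l) ^ 3 := by gcongr
    _ = 27 * 8 ^ l := by
        have : (8 : ℝ) ^ l = (2 ^ l) ^ 3 := by rw [← pow_mul, mul_comm, pow_mul]; norm_num
        rw [this]; ring
    _ ≤ 54 * 54 ^ l := by gcongr <;> norm_num
    _ = 54 ^ (l + 1) := by rw [pow_succ]; ring

theorem c_le_g (l : ℕ) (k : ℕ) (hk : k ≤ 2 ^ l) : (c k : ℝ) ≤ mu ^ k * Real.exp (g l) := by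
  refine (c_le_Gs hk).trans ?_
  apply mul_le_mul_of_nonneg_left _ (by have := mu_pos'; positivity)
  exact Real.exp_le_exp.2 (le_max_right _ _)

theorem g_le {l : ℕ} {X : ℝ} (h0 : 4 * ((l : ℝ) + 1) ≤ X)
    (h : ∀ k ≤ 2 ^ l, (c k : ℝ) ≤ mu ^ k * Real.exp X) : g l ≤ X :=
  max_le h0 (Gs_le h)

theorem g_triv (l : ℕ) : g l ≤ 8 * 2 ^ l := by
  apply max_le
  · have h : ∀ l : ℕ, 4 * ((l : ℝ) + 1) ≤ 4 * 2 ^ l := by
      intro l
      have : (l : ℝ) + 1 ≤ 2 ^ l := by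
        have := Nat.lt_two_pow_self (n := l)
        exact_mod_cast this
      linarith
    have h1 : (0 : ℝ) < 2 ^ l := by positivity
    linarith [h l]
  · refine (Gs_triv _).trans ?_
    push_cast
    have h1 : (0 : ℝ) < 2 ^ l := by positivity
    linarith

end Pool.Agent.TH232.S3
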