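import Pool.Agent.TH232.S3.Step
import Pool.Agent.W325.S3.Fin

/-! The recursion over scales: `c_n ≤ μ^n exp(K n^(1/3) exp(K (log log n)^2))` on `ℤ³`. -/

namespace Pool.Agent.TH232.S3

open Finset Pool.Agent.H46R2.K3 Pool.Agent.H46R2.K3.P Pool.Agent.W325.S3

/-- the normalised scale function -/
noncomputable def p (s : ℕ) : ℝ := max 1 (g (3 * s) / 2 ^ s)

/-- its running maximum -/
noncomputable def Pm (s : ℕ) : ℝ := (range (s + 1)).sup' ⟨0, by simp⟩ p

theorem p_le_Pm {s s' : ℕ} (h : s' ≤ s) : p s' ≤ Pm s := le_sup' p (mem_range.2 (by omega))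

theorem one_le_p (s : ℕ) : 1 ≤ p s := le_max_left _ _

theorem one_le_Pm (s : ℕ) : 1 ≤ Pm s := (one_le_p 0).trans (p_le_Pm (Nat.zero_le s))

theorem g_le_p (s : ℕ) : g (3 * s) ≤ 2 ^ s * p s := by
  have h : g (3 * s) / 2 ^ s ≤ p s := le_max_right _ _
  rw [div_le_iff₀ (by positivity)] at h
  linarith

theorem Pm_le {s : ℕ} {X : ℝ} (h : ∀ s' ≤ s, p s' ≤ X) : Pm s ≤ X := by
  apply sup'_le
  intro b hb
  exact h b (by rw [mem_range] at hb; omega)

theorem p_triv (s : ℕ) : p s ≤ 8 * 4 ^ s := by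
  have h4 : (1 : ℝ) ≤ 4 ^ s := one_le_pow₀ (by norm_num)
  apply max_le
  · linarith
  · rw [div_le_iff₀ (by positivity)]
    refine (g_triv _).trans (le_of_eq ?_)
    rw [mul_assoc, ← mul_pow, pow_mul]
    norm_num

theorem g_le_Pm {l s : ℕ} (h : (l + 2) / 3 ≤ s) : g l ≤ 2 ^ ((l + 2) / 3) * Pm s := by
  refine (g_mono (show l ≤ 3 * ((l + 2) / 3) by omega)).trans ?_
  refine (g_le_p _).trans ?_
  apply mul_le_mul_of_nonneg_left (p_le_Pm h) (by positivity)

/-- the recursion -/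
theorem p_rec {t : ℕ} (ht : 1 ≤ t) :
    p t ≤ 2 * C₀ * ((t : ℝ) + 1) ^ 3 * Pm ((2 * t + 2) / 3) := by
  obtain ⟨s, hs⟩ : ∃ s, s = (2 * t + 2) / 3 := ⟨_, rfl⟩
  rw [← hs]
  have hst : s ≤ t := by omega
  have hP1 := one_le_Pm s
  have hC := C₀_ge
  have ht0 : (0 : ℝ) ≤ t := Nat.cast_nonneg t
  have h2 : (1 : ℝ) ≤ 2 ^ t := one_le_pow₀ (by norm_num)
  have hs1 : 1 ≤ (t : ℝ) + 1 := by linarith
  have hs3 : (t : ℝ) + 1 ≤ ((t : ℝ) + 1) ^ 3 := le_self_pow₀ hs1 (by norm_num)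
  have hmain : ∀ l ≤ 2 * t, (2 : ℝ) ^ (3 * t - l) * g l ^ 3 ≤ (2 * 2 ^ t * Pm s) ^ 3 := by
    intro l hl
    have h1 := g_le_Pm (l := l) (s := s) (by omega)
    have h0 : 0 ≤ g l := by linarith [g_four l]
    calc (2 : ℝ) ^ (3 * t - l) * g l ^ 3
        ≤ 2 ^ (3 * t - l) * (2 ^ ((l + 2) / 3) * Pm s) ^ 3 := by gcongr
      _ = 2 ^ (3 * t - l + 3 * ((l + 2) / 3)) * Pm s ^ 3 := by
          rw [pow_add, mul_pow, ← pow_mul, mul_comm 3]; ring
      _ ≤ 2 ^ (3 * t + 3) * Pm s ^ 3 := by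
          apply mul_le_mul_of_nonneg_right _ (by positivity)
          exact pow_le_pow_right₀ (by norm_num) (by omega)
      _ = (2 * 2 ^ t * Pm s) ^ 3 := by rw [pow_add, mul_comm 3 t, pow_mul]; ring
  have htop : ∀ l ≤ 2 * t, g l ≤ 2 * 2 ^ t * Pm s := by
    intro l hl
    have h1 := g_le_Pm (l := l) (s := s) (by omega)
    refine h1.trans ?_
    have h3 : (2 : ℝ) ^ ((l + 2) / 3) ≤ 2 ^ t := pow_le_pow_right₀ (by norm_num) (by omega)
    have h4 : 0 ≤ 2 ^ t * Pm s := by positivity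
    calc 2 ^ ((l + 2) / 3) * Pm s ≤ 2 ^ t * Pm s := by gcongr
      _ ≤ 2 * 2 ^ t * Pm s := by linarith
  have hup : 2 * 2 ^ t * Pm s ≤ 64 * (64 : ℝ) ^ t := by
    have h3 : Pm s ≤ 8 * 4 ^ t := by
      apply Pm_le
      intro s' hs'
      refine (p_triv s').trans ?_
      have : (4 : ℝ) ^ s' ≤ 4 ^ t := pow_le_pow_right₀ (by norm_num) (by omega)
      linarith
    have h5 : (8 : ℝ) ^ t ≤ 64 ^ t := by gcongr; norm_num
    calc 2 * 2 ^ t * Pm s ≤ 2 * 2 ^ t * (8 * 4 ^ t) := by gcongr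
      _ = 16 * 8 ^ t := by
          have : (8 : ℝ) ^ t = 2 ^ t * 4 ^ t := by rw [← mul_pow]; norm_num
          rw [this]; ring
      _ ≤ 64 * 64 ^ t := by linarith [show (0 : ℝ) < 8 ^ t by positivity]
  have hlow : (2 : ℝ) ^ t ≤ 2 * 2 ^ t * Pm s := by nlinarith
  have hst := step lad_all hle_all ht hlow hup htop hmain
  obtain ⟨X, hX⟩ : ∃ X : ℝ, X = C₀ * ((t : ℝ) + 1) ^ 3 * (2 * 2 ^ t * Pm s) := ⟨_, rfl⟩
  rw [← hX] at hst
  have h1Y : 1 ≤ 2 * 2 ^ t * Pm s := h2.trans hlow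
  have hX1 : 12 * ((t : ℝ) + 1) ≤ X := by
    rw [hX]
    calc 12 * ((t : ℝ) + 1) = 12 * ((t : ℝ) + 1) * 1 := (mul_one _).symm
      _ ≤ C₀ * ((t : ℝ) + 1) ^ 3 * (2 * 2 ^ t * Pm s) := by gcongr
  have hg : g (3 * t) ≤ X := by
    apply g_le
    · push_cast; linarith
    · intro k hk
      apply hst k
      rw [pow_mul] at hk
      exact hk
  have e : X = 2 ^ t * (2 * C₀ * ((t : ℝ) + 1) ^ 3 * Pm s) := by rw [hX]; ring
  apply max_le
  · have h6 : (1 : ℝ) ≤ ((t : ℝ) + 1) ^ 3 := one_le_pow₀ hs1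
    calc (1 : ℝ) = 1 * 1 * 1 := by norm_num
      _ ≤ 2 * C₀ * ((t : ℝ) + 1) ^ 3 * Pm s := by gcongr; linarith
  · rw [div_le_iff₀ (by positivity)]
    linarith

/-- the solution of the recursion -/
theorem p_bound : ∃ K A : ℝ, 1 ≤ K ∧ 0 ≤ A ∧
    ∀ t : ℕ, p t ≤ K * Real.exp (A * Real.log ((t : ℝ) + 2) ^ 2) := by
  have hC := C₀_ge
  obtain ⟨B, hB⟩ : ∃ B : ℝ, B = Real.log (2 * C₀) := ⟨_, rfl⟩
  have hB0 : 0 ≤ B := by rw [hB]; exact Real.log_nonneg (by linarith)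
  refine ⟨Pm 2, 15 * (B + 3), one_le_Pm 2, by positivity, ?_⟩
  obtain ⟨A, hA⟩ : ∃ A : ℝ, A = 15 * (B + 3) := ⟨_, rfl⟩
  rw [← hA]
  have hA0 : 0 ≤ A := by rw [hA]; positivity
  have hK := one_le_Pm 2
  intro t
  induction t using Nat.strong_induction_on with
  | _ t ih =>
    rcases Nat.lt_or_ge t 3 with ht | ht
    · have h1 : p t ≤ Pm 2 := p_le_Pm (by omega)
      have h2 : 1 ≤ Real.exp (A * Real.log ((t : ℝ) + 2) ^ 2) := Real.one_le_exp (by positivity)
      nlinarith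
    · obtain ⟨s, hs⟩ : ∃ s, s = (2 * t + 2) / 3 := ⟨_, rfl⟩
      have hst : s < t := by omega
      have h1 := p_rec (t := t) (by omega)
      rw [← hs] at h1
      have h2 : Pm s ≤ Pm 2 * Real.exp (A * Real.log ((s : ℝ) + 2) ^ 2) := by
        apply Pm_le
        intro s' hs'
        refine (ih s' (by omega)).trans ?_
        have hs'0 : (0 : ℝ) ≤ s' := Nat.cast_nonneg s'
        have h3 : Real.log ((s' : ℝ) + 2) ≤ Real.log ((s : ℝ) + 2) := by
          apply Real.log_le_log (by linarith)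
          have : (s' : ℝ) ≤ s := by exact_mod_cast hs'
          linarith
        have h4 : 0 ≤ Real.log ((s' : ℝ) + 2) := Real.log_nonneg (by linarith)
        gcongr
      have ht3 : (3 : ℝ) ≤ t := by exact_mod_cast ht
      have hs0 : (0 : ℝ) ≤ s := Nat.cast_nonneg s
      have hs3 : 3 * (s : ℝ) ≤ 2 * t + 2 := by
        have : 3 * s ≤ 2 * t + 2 := by omega
        exact_mod_cast this
      obtain ⟨x, hx⟩ : ∃ x : ℝ, x = Real.log ((t : ℝ) + 2) := ⟨_, rfl⟩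
      obtain ⟨y, hy⟩ : ∃ y : ℝ, y = Real.log ((s : ℝ) + 2) := ⟨_, rfl⟩
      rw [← hx]
      rw [← hy] at h2
      have hy0 : 0 ≤ y := by rw [hy]; exact Real.log_nonneg (by linarith)
      have hx1 : 1 ≤ x := by
        rw [hx]
        have h5 : Real.log (Real.exp 1) ≤ Real.log ((t : ℝ) + 2) := by
          apply Real.log_le_log (Real.exp_pos 1)
          have := Real.exp_one_lt_d9
          linarith
        rwa [Real.log_exp] at h5
      have hxy : y + 1 / 15 ≤ x := by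
        have h5 : x - y = Real.log (((t : ℝ) + 2) / ((s : ℝ) + 2)) := by
          rw [hx, hy, Real.log_div (by linarith) (by linarith)]
        have h6 := Real.one_sub_inv_le_log_of_pos
          (show 0 < ((t : ℝ) + 2) / ((s : ℝ) + 2) by positivity)
        rw [← h5, inv_div] at h6
        have h7 : ((s : ℝ) + 2) / ((t : ℝ) + 2) ≤ 14 / 15 := by
          rw [div_le_iff₀ (by linarith)]
          linarith
        linarith
      have hsq : B + 3 * x + A * y ^ 2 ≤ A * x ^ 2 := by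
        have h5 : x ^ 2 - y ^ 2 = (x - y) * (x + y) := by ring
        have h6 : (1 / 15) * x ≤ (x - y) * (x + y) := by
          apply mul_le_mul (by linarith) (by linarith) (by linarith) (by linarith)
        have h7 : A * ((1 / 15) * x) ≤ A * (x ^ 2 - y ^ 2) := by
          rw [h5]; exact mul_le_mul_of_nonneg_left h6 hA0
        have h8 : A * ((1 / 15) * x) = (B + 3) * x := by rw [hA]; ring
        nlinarith
      have e1 : 2 * C₀ = Real.exp B := by rw [hB, Real.exp_log (by linarith)]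
      have e2 : ((t : ℝ) + 1) ^ 3 ≤ Real.exp (3 * x) := by
        have h5 : (t : ℝ) + 1 ≤ Real.exp x := by
          rw [hx, Real.exp_log (by linarith)]; linarith
        calc ((t : ℝ) + 1) ^ 3 ≤ Real.exp x ^ 3 := by gcongr
          _ = Real.exp (3 * x) := by rw [← Real.exp_nat_mul]; norm_num
      have hP0 : 0 ≤ Pm s := by linarith [one_le_Pm s]
      calc p t ≤ 2 * C₀ * ((t : ℝ) + 1) ^ 3 * Pm s := h1
        _ ≤ Real.exp B * Real.exp (3 * x) * (Pm 2 * Real.exp (A * y ^ 2)) := by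
            rw [e1]
            gcongr
        _ = Pm 2 * Real.exp (B + 3 * x + A * y ^ 2) := by
            rw [Real.exp_add, Real.exp_add]; ring
        _ ≤ Pm 2 * Real.exp (A * x ^ 2) := by gcongr

/-- **The bound.** -/
theorem c_bound : ∃ K : ℝ, ∀ n : ℕ, 3 ≤ n →
    (c n : ℝ) ≤ mu ^ n * Real.exp (K * (n : ℝ) ^ (1 / 3 : ℝ) *
      Real.exp (K * Real.log (Real.log n) ^ 2)) := by
  obtain ⟨K, A, hK, hA, h⟩ := p_bound
  refine ⟨max (2 * K * Real.exp (8 * A)) (2 * A), ?_⟩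
  intro n hn
  obtain ⟨t, ht⟩ : ∃ t, t = Nat.clog 8 n := ⟨_, rfl⟩
  have h1 : n ≤ 8 ^ t := by rw [ht]; exact Nat.le_pow_clog (by norm_num) n
  have h2 : 8 ^ (t - 1) < n := by
    rw [ht]; exact Nat.pow_pred_clog_lt_self (by norm_num) (by omega)
  have ht1 : 1 ≤ t := by
    by_contra h0
    have : t = 0 := by omega
    rw [this] at h1
    omega
  have hn3 : (3 : ℝ) ≤ n := by exact_mod_cast hn
  have hn0 : (0 : ℝ) ≤ n := by linarith
  have hlog1 : 1 ≤ Real.log n := by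
    have h5 : Real.log (Real.exp 1) ≤ Real.log n := by
      apply Real.log_le_log (Real.exp_pos 1)
      have := Real.exp_one_lt_d9
      linarith
    rwa [Real.log_exp] at h5
  have h3 : (2 : ℝ) ^ t ≤ 2 * (n : ℝ) ^ (1 / 3 : ℝ) := by
    have h5 : (8 : ℝ) ^ (t - 1) ≤ n := by exact_mod_cast h2.le
    have h6 : (2 : ℝ) ^ (t - 1) = ((8 : ℝ) ^ (t - 1)) ^ (1 / 3 : ℝ) := by
      have e : (8 : ℝ) ^ (t - 1) = ((2 : ℝ) ^ (t - 1)) ^ (3 : ℝ) := by
        have : (3 : ℝ) = ((3 : ℕ) : ℝ) := by norm_num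
        rw [this, Real.rpow_natCast, ← pow_mul, mul_comm, pow_mul]
        norm_num
      rw [e, ← Real.rpow_mul (by positivity)]
      norm_num
    have h7 : (2 : ℝ) ^ t = 2 * 2 ^ (t - 1) := by
      rw [← pow_succ', show t - 1 + 1 = t by omega]
    rw [h7, h6]
    gcongr
  have h4 : (t : ℝ) + 2 ≤ 4 * Real.log n := by
    have h5 : ((t - 1 : ℕ) : ℝ) * Real.log 8 ≤ Real.log n := by
      rw [← Real.log_pow]
      apply Real.log_le_log (by positivity)
      exact_mod_cast h2.le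
    have h6 : (1 : ℝ) ≤ Real.log 8 := by
      have h7 : Real.log (Real.exp 1) ≤ Real.log 8 := by
        apply Real.log_le_log (Real.exp_pos 1)
        have := Real.exp_one_lt_d9
        linarith
      rwa [Real.log_exp] at h7
    have h7 : (0 : ℝ) ≤ ((t - 1 : ℕ) : ℝ) := Nat.cast_nonneg _
    have h8 : ((t - 1 : ℕ) : ℝ) ≤ Real.log n := by nlinarith
    rw [Nat.cast_sub ht1] at h8
    push_cast at h8
    linarith
  obtain ⟨x, hx⟩ : ∃ x : ℝ, x = Real.log (Real.log n) := ⟨_, rfl⟩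
  have hx0 : 0 ≤ x := by rw [hx]; exact Real.log_nonneg hlog1
  have hl : Real.log ((t : ℝ) + 2) ≤ 2 + x := by
    have ht0 : (0 : ℝ) ≤ t := Nat.cast_nonneg t
    have h5 : Real.log ((t : ℝ) + 2) ≤ Real.log (4 * Real.log n) :=
      Real.log_le_log (by linarith) h4
    rw [Real.log_mul (by norm_num) (by linarith), ← hx] at h5
    have h6 : Real.log 4 ≤ 2 := by
      have h7 : Real.log 4 ≤ Real.log (Real.exp 2) := by
        apply Real.log_le_log (by norm_num)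
        have e4 : Real.exp 2 = Real.exp 1 ^ 2 := by rw [← Real.exp_nat_mul]; norm_num
        rw [e4]
        calc (4 : ℝ) = 2 ^ 2 := by norm_num
          _ ≤ Real.exp 1 ^ 2 := by have := exp_two; gcongr
      rwa [Real.log_exp] at h7
    linarith
  have hl0 : 0 ≤ Real.log ((t : ℝ) + 2) := by
    have ht0 : (0 : ℝ) ≤ t := Nat.cast_nonneg t
    exact Real.log_nonneg (by linarith)
  have hsq : Real.log ((t : ℝ) + 2) ^ 2 ≤ 8 + 2 * x ^ 2 := by
    calc Real.log ((t : ℝ) + 2) ^ 2 ≤ (2 + x) ^ 2 := by gcongr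
      _ ≤ 8 + 2 * x ^ 2 := by nlinarith [sq_nonneg (x - 2)]
  have hg : g (3 * t) ≤ max (2 * K * Real.exp (8 * A)) (2 * A) * (n : ℝ) ^ (1 / 3 : ℝ) *
      Real.exp (max (2 * K * Real.exp (8 * A)) (2 * A) * x ^ 2) := by
    have hpos : 0 ≤ p t := by linarith [one_le_p t]
    have hr0 : (0 : ℝ) ≤ (n : ℝ) ^ (1 / 3 : ℝ) := by positivity
    calc g (3 * t) ≤ 2 ^ t * p t := g_le_p t
      _ ≤ (2 * (n : ℝ) ^ (1 / 3 : ℝ)) * (K * Real.exp (A * Real.log ((t : ℝ) + 2) ^ 2)) := by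
          have := h t
          gcongr
      _ ≤ (2 * (n : ℝ) ^ (1 / 3 : ℝ)) * (K * Real.exp (A * (8 + 2 * x ^ 2))) := by gcongr
      _ = (2 * K * Real.exp (8 * A)) * (n : ℝ) ^ (1 / 3 : ℝ) * Real.exp (2 * A * x ^ 2) := by
          rw [mul_add, Real.exp_add]
          ring_nf
      _ ≤ _ := by
          gcongr
          · exact le_max_left _ _
          · exact le_max_right _ _
  refine (c_le_g (3 * t) n (by rw [pow_mul]; exact h1)).trans ?_
  have hmu := mu_pos'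
  rw [← hx]
  gcongr

end Pool.Agent.TH232.S3
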