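import Pool.Agent.TH232.S3.Gsup
import Pool.Agent.TH232.S3.Data
import Pool.Agent.H46R2.K3.REC
import Pool.Agent.H46R2.K3.CUT

/-! One step of the recursion over scales, with explicit constants. -/

namespace Pool.Agent.TH232.S3

open Finset Pool.Agent.H46R2.K3 Pool.Agent.H46R2.K3.P Pool.Agent.W325.S3

/-- the constant -/
noncomputable def c₁ : ℝ := 896 * Cst

theorem c₁_pos : 0 < c₁ := by
  have := st_Cst
  unfold c₁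
  linarith

theorem exp_two : (2 : ℝ) ≤ Real.exp 1 := by
  have h4 := Real.exp_one_gt_d9
  linarith

/-- the base of the power -/
theorem st_base2 {t RI F n : ℕ} {Y₁ : ℝ} (hY0 : 0 ≤ Y₁) (hY₁ : Y₁ ≤ 64 * 64 ^ t) (hF : (F : ℝ) ≤ 33 * RI)
    (hR : (RI : ℝ) ≤ Y₁ * 576 ^ (2 * t)) (hn : n ≤ 8 ^ t + 1) :
    37 * ((n : ℝ) + ((6 * (2 * t + 1) * RI + F) * (2 * 2 ^ (2 * t)) : ℕ) + 1) ^ 4 ≤
      Real.exp (200 * ((t : ℝ) + 1)) := by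
  have ht : (t : ℝ) + 1 ≤ 2 ^ t := by
    have := Nat.lt_two_pow_self (n := t)
    exact_mod_cast this
  have hLx : (((6 * (2 * t + 1) * RI + F) * (2 * 2 ^ (2 * t)) : ℕ) : ℝ) ≤ 4992 * 169869312 ^ t := by
    push_cast
    calc (6 * (2 * (t : ℝ) + 1) * RI + F) * (2 * 2 ^ (2 * t))
        ≤ (6 * (2 * (t : ℝ) + 1) * RI + 33 * RI) * (2 * 2 ^ (2 * t)) := by gcongr
      _ = (12 * (t : ℝ) + 39) * RI * (2 * 2 ^ (2 * t)) := by ring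
      _ ≤ (39 * 2 ^ t) * ((64 * 64 ^ t) * 576 ^ (2 * t)) * (2 * 2 ^ (2 * t)) := by
          have h0 : (0 : ℝ) ≤ t := Nat.cast_nonneg t
          gcongr
          · linarith
          · exact hR.trans (by gcongr)
      _ = 4992 * 169869312 ^ t := by
          have e1 : (576 : ℝ) ^ (2 * t) = 331776 ^ t := by rw [pow_mul]; norm_num
          have e2 : (2 : ℝ) ^ (2 * t) = 4 ^ t := by rw [pow_mul]; norm_num
          have e3 : (169869312 : ℝ) ^ t = 2 ^ t * 64 ^ t * 331776 ^ t * 4 ^ t := by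
            rw [← mul_pow, ← mul_pow, ← mul_pow]; norm_num
          rw [e1, e2, e3]; ring
  have hn' : (n : ℝ) ≤ 8 ^ t + 1 := by exact_mod_cast hn
  have h8 : (8 : ℝ) ^ t ≤ 169869312 ^ t := by gcongr; norm_num
  have h1 : (1 : ℝ) ≤ 169869312 ^ t := one_le_pow₀ (by norm_num)
  have hb : (n : ℝ) + ((6 * (2 * t + 1) * RI + F) * (2 * 2 ^ (2 * t)) : ℕ) + 1 ≤
      5000 * 169869312 ^ t := by linarith
  have h200 : (2 : ℝ) ^ 200 ≤ Real.exp 200 := by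
    have e : Real.exp 200 = Real.exp 1 ^ 200 := by rw [← Real.exp_nat_mul]; norm_num
    rw [e]
    exact pow_le_pow_left₀ (by norm_num) exp_two _
  calc 37 * ((n : ℝ) + ((6 * (2 * t + 1) * RI + F) * (2 * 2 ^ (2 * t)) : ℕ) + 1) ^ 4
      ≤ 37 * (5000 * 169869312 ^ t) ^ 4 := by gcongr
    _ = 37 * 5000 ^ 4 * (169869312 ^ 4) ^ t := by rw [mul_pow, ← pow_mul, ← pow_mul]; ring_nf
    _ ≤ 2 ^ 200 * (2 ^ 200) ^ t := by gcongr <;> norm_num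
    _ ≤ Real.exp 200 * Real.exp 200 ^ t := by gcongr
    _ = Real.exp (200 * ((t : ℝ) + 1)) := by
        rw [← Real.exp_nat_mul, ← Real.exp_add]; ring_nf

/-- the bound `σ` -/
theorem st_sigma2 {t RI F n : ℕ} {Y Y₁ : ℝ} (h1 : 1 ≤ Y₁) (hY₁ : Y₁ ≤ 64 * 64 ^ t)
    (hY : Y = Cst * 16 * Y₁) (hF : (F : ℝ) ≤ 33 * RI)
    (hR : (RI : ℝ) ≤ Y₁ * 576 ^ (2 * t)) (hn : n ≤ 8 ^ t + 1) :
    ((2 * t : ℕ) : ℝ) + Real.exp (14 * (((2 * t : ℕ) : ℝ) + 1) ^ 2 * Y) *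
        (((6 * (2 * t + 1) * RI + F) * (2 * 2 ^ (2 * t)) : ℕ) + 1) *
        (37 * ((n : ℝ) + ((6 * (2 * t + 1) * RI + F) * (2 * 2 ^ (2 * t)) : ℕ) + 1) ^ 4) ^
          ⌊14 * (((2 * t : ℕ) : ℝ) + 1) ^ 2 * Y⌋₊ ≤
      Real.exp ((202 + 201 * c₁) * ((t : ℝ) + 1) ^ 3 * Y₁) := by
  have hbase := st_base2 (by linarith) hY₁ hF hR hn
  obtain ⟨Lx, hLx⟩ : ∃ Lx : ℕ, Lx = (6 * (2 * t + 1) * RI + F) * (2 * 2 ^ (2 * t)) := ⟨_, rfl⟩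
  rw [← hLx] at hbase ⊢
  obtain ⟨W, hW⟩ : ∃ W : ℝ, W = 200 * ((t : ℝ) + 1) := ⟨_, rfl⟩
  rw [← hW] at hbase
  have ht0 : (0 : ℝ) ≤ t := Nat.cast_nonneg t
  have hW0 : 0 ≤ W := by rw [hW]; positivity
  have hCst := st_Cst
  have hc := c₁_pos
  have hn0 : (0 : ℝ) ≤ n := Nat.cast_nonneg n
  have hLx0 : (0 : ℝ) ≤ Lx := Nat.cast_nonneg _
  have hT1 : (Lx : ℝ) + 1 ≤ Real.exp W := by
    refine le_trans ?_ hbase
    have h1 : (1 : ℝ) ≤ (n : ℝ) + Lx + 1 := by linarith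
    have h2 : (n : ℝ) + Lx + 1 ≤ ((n : ℝ) + Lx + 1) ^ 4 := le_self_pow₀ h1 (by norm_num)
    linarith
  obtain ⟨Y', hY'⟩ : ∃ Y' : ℝ, Y' = 14 * (((2 * t : ℕ) : ℝ) + 1) ^ 2 * Y := ⟨_, rfl⟩
  have hYp : 0 ≤ Y := by rw [hY]; positivity
  have hY'0 : 0 ≤ Y' := by rw [hY']; positivity
  have hY'e : Y' ≤ c₁ * ((t : ℝ) + 1) ^ 2 * Y₁ := by
    rw [hY', hY]
    push_cast
    have h2 : (2 * (t : ℝ) + 1) ^ 2 ≤ (2 * ((t : ℝ) + 1)) ^ 2 := by gcongr; linarith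
    calc 14 * (2 * (t : ℝ) + 1) ^ 2 * (Cst * 16 * Y₁)
        ≤ 14 * (2 * ((t : ℝ) + 1)) ^ 2 * (Cst * 16 * Y₁) := by gcongr
      _ = c₁ * ((t : ℝ) + 1) ^ 2 * Y₁ := by unfold c₁; ring
  rw [← hY']
  have hpow : (37 * ((n : ℝ) + Lx + 1) ^ 4) ^ ⌊Y'⌋₊ ≤ Real.exp (Y' * W) := by
    calc (37 * ((n : ℝ) + Lx + 1) ^ 4) ^ ⌊Y'⌋₊ ≤ (Real.exp W) ^ ⌊Y'⌋₊ := by gcongr
      _ = Real.exp (⌊Y'⌋₊ * W) := by rw [← Real.exp_nat_mul]
      _ ≤ Real.exp (Y' * W) := by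
          apply Real.exp_le_exp.2
          have := Nat.floor_le hY'0
          gcongr
  have hA : Real.exp Y' * ((Lx : ℝ) + 1) * (37 * ((n : ℝ) + Lx + 1) ^ 4) ^ ⌊Y'⌋₊ ≤
      Real.exp (Y' + W + Y' * W) := by
    rw [Real.exp_add, Real.exp_add]
    gcongr
  have hA0 : 0 ≤ Y' + W + Y' * W := by positivity
  have hI0 : (0 : ℝ) ≤ ((2 * t : ℕ) : ℝ) := Nat.cast_nonneg _
  have hB : ((2 * t : ℕ) : ℝ) + Real.exp (Y' + W + Y' * W) ≤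
      Real.exp (((2 * t : ℕ) : ℝ) + (Y' + W + Y' * W)) := by
    rw [Real.exp_add ((2 * t : ℕ) : ℝ)]
    have h1 := Real.add_one_le_exp ((2 * t : ℕ) : ℝ)
    have h2 := Real.one_le_exp hA0
    nlinarith
  refine le_trans (add_le_add_right hA ((2 * t : ℕ) : ℝ)) (le_trans hB ?_)
  apply Real.exp_le_exp.2
  obtain ⟨s, hs⟩ : ∃ s : ℝ, s = (t : ℝ) + 1 := ⟨_, rfl⟩
  have hs1 : 1 ≤ s := by rw [hs]; linarith
  rw [← hs] at hY'e hW ⊢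
  have hst : (t : ℝ) ≤ s := by rw [hs]; linarith
  have hs2 : (1 : ℝ) ≤ s ^ 2 := one_le_pow₀ hs1
  have hs3 : s ^ 2 ≤ s ^ 3 := pow_le_pow_right₀ hs1 (by norm_num)
  have hs4 : s ≤ s ^ 3 := le_self_pow₀ hs1 (by norm_num)
  have hsY : s ≤ s ^ 3 * Y₁ := by nlinarith
  have f1 : Y' ≤ c₁ * (s ^ 3 * Y₁) := by
    refine hY'e.trans ?_
    calc c₁ * s ^ 2 * Y₁ ≤ c₁ * s ^ 3 * Y₁ := by gcongr
      _ = _ := by ring
  have f2 : W ≤ 200 * (s ^ 3 * Y₁) := by rw [hW]; linarith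
  have f3 : Y' * W ≤ 200 * c₁ * (s ^ 3 * Y₁) := by
    calc Y' * W ≤ (c₁ * s ^ 2 * Y₁) * W := by gcongr
      _ = 200 * c₁ * (s ^ 3 * Y₁) := by rw [hW]; ring
  have f4 : ((2 * t : ℕ) : ℝ) ≤ 2 * (s ^ 3 * Y₁) := by push_cast; linarith
  calc ((2 * t : ℕ) : ℝ) + (Y' + W + Y' * W) ≤ 2 * (s ^ 3 * Y₁) +
        (c₁ * (s ^ 3 * Y₁) + 200 * (s ^ 3 * Y₁) + 200 * c₁ * (s ^ 3 * Y₁)) := by linarith
    _ = (202 + 201 * c₁) * s ^ 3 * Y₁ := by ring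

/-- the constant of the step -/
noncomputable def C₀ : ℝ := 2 * ((202 + 201 * c₁) + 6) + 4

theorem C₀_ge : 12 ≤ C₀ := by
  have := c₁_pos
  unfold C₀
  linarith

theorem step (hL : S_LAD) (hH : S_HLE) {t : ℕ} (ht : 1 ≤ t) {Y₁ : ℝ} (hY₁2 : (2 : ℝ) ^ t ≤ Y₁)
    (hYu : Y₁ ≤ 64 * 64 ^ t) (htop : ∀ l ≤ 2 * t, g l ≤ Y₁)
    (hmain : ∀ l ≤ 2 * t, (2 : ℝ) ^ (3 * t - l) * g l ^ 3 ≤ Y₁ ^ 3) (n : ℕ) (hn : n ≤ 8 ^ t) :
    (c n : ℝ) ≤ mu ^ n * Real.exp (C₀ * ((t : ℝ) + 1) ^ 3 * Y₁) := by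
  have h2t : (2 : ℝ) ≤ 2 ^ t := le_self_pow₀ (by norm_num) (by omega)
  have hY2 : 2 ≤ Y₁ := h2t.trans hY₁2
  obtain ⟨E, r, hh, len, B, R, F, Y, hLad, hbad, hlen, hR1, hRm, hRF, hEF, hrR, hrF,
    htap, havg, havF, hY, hFb, hRb, hbge⟩ := data hL (Q := 2) le_rfl g_mono1
      (by linarith [g_four 0]) g_succ g_base1 g_base2 c_le_g (M := 3 * t) (I := 2 * t)
      (by omega) (by omega) (by omega) hY2 htop (by exact_mod_cast hmain)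
  have e8 : 2 ^ (3 * t) = 8 ^ t := by rw [pow_mul]; norm_num
  have hmu1 := one_le_mu
  have hmu0 : (0 : ℝ) < mu := by linarith
  have hQM : 1 ≤ 8 ^ t := Nat.one_le_pow _ _ (by omega)
  have hY' : Y = Cst * 16 * Y₁ := by rw [hY]; push_cast; norm_num
  have hRb' : (R (2 * t) : ℝ) ≤ Y₁ * 576 ^ (2 * t) := by
    refine hRb.trans (le_of_eq ?_)
    push_cast; norm_num
  obtain ⟨S, hS⟩ : ∃ S : ℝ, S = ((t : ℝ) + 1) ^ 3 * Y₁ := ⟨_, rfl⟩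
  obtain ⟨σ, hσe⟩ : ∃ σ : ℝ, σ = Real.exp ((202 + 201 * c₁) * ((t : ℝ) + 1) ^ 3 * Y₁) := ⟨_, rfl⟩
  have hc := c₁_pos
  have hσ1 : 1 ≤ σ := by rw [hσe]; exact Real.one_le_exp (by positivity)
  have hhle : ∀ m ≤ 2 ^ (3 * t) + 1, (hle m (E (2 * t)) : ℝ) ≤ σ * mu ^ m := by
    intro m hm
    have h1 := hH 2 (2 * t) (2 ^ (3 * t) + 1) g le_rfl (by omega) (by omega)
      (by linarith [g_four 0]) g_mono1 E r hh len B hLad hbad (2 * 2 ^ (2 * t))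
      hlen R F Y hR1 hRm hRF hEF hrR hrF htap havg havF m hm
    have h2 := st_sigma2 (n := m) (by linarith) hYu hY' hFb hRb' (by rw [← e8]; exact hm)
    rw [← hσe] at h2
    refine h1.trans ?_
    rw [mul_comm σ]
    exact mul_le_mul_of_nonneg_left h2 (by positivity)
  have hhs := hs_bound (N := 2 ^ (3 * t) + 1) (Lb := 2 ^ (2 * t)) (ρ := E (2 * t)) (σ := σ) hσ1
    (Nat.one_le_pow _ _ (by omega)) hhle hbge
  rw [e8] at hhs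
  obtain ⟨Bd, hBd⟩ : ∃ Bd : ℝ, Bd = 2 * σ * (4 * (((8 ^ t + 1 : ℕ) : ℝ) + 2)) ^ (2 * 2 ^ t) :=
    ⟨_, rfl⟩
  have hNe : (((8 ^ t + 1 : ℕ) : ℝ) + 2) = (8 : ℝ) ^ t + 3 := by push_cast; ring
  have hQMr : (1 : ℝ) ≤ (8 : ℝ) ^ t := one_le_pow₀ (by norm_num)
  have hbase : (1 : ℝ) ≤ 4 * (((8 ^ t + 1 : ℕ) : ℝ) + 2) := by
    rw [hNe]; linarith
  have hdiv : (8 ^ t + 1) / 2 ^ (2 * t) ≤ 2 * 2 ^ t := by
    apply Nat.div_le_of_le_mul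
    have h2 : 8 ^ t = 2 ^ (2 * t) * 2 ^ t := by
      rw [← e8, ← pow_add]; congr 1; omega
    calc 8 ^ t + 1 ≤ 2 * 8 ^ t := by omega
      _ = 2 ^ (2 * t) * (2 * 2 ^ t) := by rw [h2]; ring
  have hB0 : 0 ≤ Bd := by rw [hBd]; positivity
  have hhs' : ∀ m ≤ 8 ^ t + 1, (hs m : ℝ) ≤ Bd * mu ^ m := by
    intro m hm
    refine (hhs m hm).trans ?_
    rw [hBd]
    apply mul_le_mul_of_nonneg_right _ (by positivity)
    apply mul_le_mul_of_nonneg_left _ (by positivity)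
    exact pow_le_pow_right₀ hbase ((Nat.div_le_div_right hm).trans hdiv)
  have hc' : (c n : ℝ) ≤ ((n : ℝ) + 1) * Bd ^ 2 * mu ^ (n + 1) := by
    have h1 : (c n : ℝ) ≤ ∑ k ∈ range (n + 1), (hs (k + 1) : ℝ) * (hs (n - k) : ℝ) := by
      exact_mod_cast c_split n
    refine h1.trans ?_
    have h2 : ∀ k ∈ range (n + 1), (hs (k + 1) : ℝ) * (hs (n - k) : ℝ) ≤
        Bd ^ 2 * mu ^ (n + 1) := by
      intro k hk
      rw [mem_range] at hk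
      calc (hs (k + 1) : ℝ) * (hs (n - k) : ℝ) ≤ (Bd * mu ^ (k + 1)) * (Bd * mu ^ (n - k)) := by
            apply mul_le_mul (hhs' _ (by omega)) (hhs' _ (by omega)) (by positivity)
              (by positivity)
        _ = Bd ^ 2 * mu ^ (k + 1 + (n - k)) := by rw [pow_add]; ring
        _ = Bd ^ 2 * mu ^ (n + 1) := by congr 2; omega
    refine (sum_le_sum h2).trans ?_
    rw [sum_const, card_range, nsmul_eq_mul]
    push_cast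
    exact le_of_eq (by ring)
  -- numerics
  have ht0 : (0 : ℝ) ≤ t := Nat.cast_nonneg t
  have hs1 : 1 ≤ (t : ℝ) + 1 := by linarith
  have hs3 : (t : ℝ) + 1 ≤ ((t : ℝ) + 1) ^ 3 := le_self_pow₀ hs1 (by norm_num)
  have hsS : ((t : ℝ) + 1) * Y₁ ≤ S := by rw [hS]; gcongr
  have htS : (t : ℝ) + 1 ≤ S := by nlinarith
  have he3 : (20 : ℝ) ≤ Real.exp 3 := by
    have e3 : Real.exp 3 = Real.exp 1 ^ 3 := by rw [← Real.exp_nat_mul]; norm_num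
    have h4 := Real.exp_one_gt_d9
    have h5 : (2.7182818283 : ℝ) ^ 3 ≤ Real.exp 1 ^ 3 := by gcongr
    rw [e3]
    exact le_trans (by norm_num) h5
  have h8e : (8 : ℝ) ^ t ≤ Real.exp (3 * t) := by
    calc (8 : ℝ) ^ t ≤ Real.exp 3 ^ t := by gcongr; linarith
      _ = Real.exp (3 * t) := by rw [← Real.exp_nat_mul]; ring_nf
  have f1 : (4 * (((8 ^ t + 1 : ℕ) : ℝ) + 2)) ^ (2 * 2 ^ t) ≤ Real.exp (6 * S) := by
    have h1 : 4 * (((8 ^ t + 1 : ℕ) : ℝ) + 2) ≤ Real.exp (3 * ((t : ℝ) + 1)) := by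
      calc 4 * (((8 ^ t + 1 : ℕ) : ℝ) + 2) = 4 * ((8 : ℝ) ^ t + 3) := by rw [hNe]
        _ ≤ 20 * (8 : ℝ) ^ t := by linarith
        _ ≤ Real.exp 3 * Real.exp (3 * t) := by gcongr
        _ = _ := by rw [← Real.exp_add]; ring_nf
    calc (4 * (((8 ^ t + 1 : ℕ) : ℝ) + 2)) ^ (2 * 2 ^ t)
        ≤ (Real.exp (3 * ((t : ℝ) + 1))) ^ (2 * 2 ^ t) := by gcongr
      _ = Real.exp (((2 * 2 ^ t : ℕ) : ℝ) * (3 * ((t : ℝ) + 1))) := by rw [← Real.exp_nat_mul]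
      _ ≤ _ := by
          apply Real.exp_le_exp.2
          push_cast
          calc 2 * (2 : ℝ) ^ t * (3 * ((t : ℝ) + 1)) = 6 * (((t : ℝ) + 1) * 2 ^ t) := by ring
            _ ≤ 6 * (((t : ℝ) + 1) * Y₁) := by gcongr
            _ ≤ 6 * S := by linarith
  have f2 : 4 * (((n : ℝ) + 1) * mu) ≤ Real.exp (4 * S) := by
    have h4 : (n : ℝ) ≤ (8 : ℝ) ^ t := by exact_mod_cast hn
    have h5 := mu_le_six
    have h6 := exp_four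
    calc 4 * (((n : ℝ) + 1) * mu) ≤ 4 * (((8 : ℝ) ^ t + 1) * 6) := by gcongr
      _ ≤ 54 * (8 : ℝ) ^ t := by linarith
      _ ≤ Real.exp 4 * Real.exp (3 * t) := by gcongr
      _ = Real.exp (4 + 3 * t) := by rw [Real.exp_add]
      _ ≤ _ := Real.exp_le_exp.2 (by linarith)
  have f3 : Bd ≤ 2 * Real.exp (((202 + 201 * c₁) + 6) * S) := by
    rw [hBd, hσe]
    have e : (202 + 201 * c₁) * ((t : ℝ) + 1) ^ 3 * Y₁ = (202 + 201 * c₁) * S := by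
      rw [hS]; ring
    rw [e]
    calc 2 * Real.exp ((202 + 201 * c₁) * S) * (4 * (((8 ^ t + 1 : ℕ) : ℝ) + 2)) ^ (2 * 2 ^ t)
        ≤ 2 * Real.exp ((202 + 201 * c₁) * S) * Real.exp (6 * S) := by gcongr
      _ = _ := by rw [mul_assoc, ← Real.exp_add]; ring_nf
  have e0 : C₀ * ((t : ℝ) + 1) ^ 3 * Y₁ = C₀ * S := by rw [hS]; ring
  rw [e0]
  calc (c n : ℝ) ≤ ((n : ℝ) + 1) * Bd ^ 2 * mu ^ (n + 1) := hc'
    _ ≤ ((n : ℝ) + 1) * (2 * Real.exp (((202 + 201 * c₁) + 6) * S)) ^ 2 * mu ^ (n + 1) := by gcongr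
    _ = mu ^ n * ((4 * (((n : ℝ) + 1) * mu)) * Real.exp (((202 + 201 * c₁) + 6) * S) ^ 2) := by
        ring
    _ ≤ mu ^ n * (Real.exp (4 * S) * Real.exp (((202 + 201 * c₁) + 6) * S) ^ 2) := by gcongr
    _ = mu ^ n * Real.exp (C₀ * S) := by
        rw [← Real.exp_nat_mul, ← Real.exp_add]
        congr 2
        unfold C₀
        push_cast
        ring

end Pool.Agent.TH232.S3
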